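import Pool.Agent.Run7.h719.MO.Iface

set_option autoImplicit false

open MeasureTheory Set Filter Real Metric
open scoped ContDiff

namespace Run7.h719.MO

/-- the radii of the centres for which the circle means are already zero -/
noncomputable def rh (a b : ℝ) (n : ℕ) : ℝ := 1 - (1 - b) / (1 + a) ^ n

lemma rh_zero (a b : ℝ) : rh a b 0 = b := by unfold rh; simp

lemma rh_succ {a : ℝ} (b : ℝ) (ha : 0 < a) (n : ℕ) :
    rh a b (n + 1) = 1 - (1 - rh a b n) / (1 + a) := by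
  unfold rh
  have : (1 + a) ≠ 0 := by linarith
  rw [pow_succ]
  field_simp
  ring

lemma rh_lt {a b : ℝ} (ha : 0 < a) (hb1 : b < 1) (n : ℕ) : rh a b n < 1 := by
  unfold rh
  have : 0 < (1 - b) / (1 + a) ^ n := by
    have : 0 < 1 - b := by linarith
    positivity
  linarith

lemma rh_le_succ {a b : ℝ} (ha : 0 < a) (hb1 : b < 1) (n : ℕ) : rh a b n ≤ rh a b (n + 1) := by
  rw [rh_succ b ha]
  have h1 := rh_lt ha hb1 n
  have h2 : (1 - rh a b n) / (1 + a) ≤ 1 - rh a b n := div_le_self (by linarith) (by linarith)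
  linarith

lemma rh_mono {a b : ℝ} (ha : 0 < a) (hb1 : b < 1) : Monotone (rh a b) :=
  monotone_nat_of_le_succ (rh_le_succ ha hb1)

lemma rh_pos {a b : ℝ} (ha : 0 < a) (hb : 0 < b) (hb1 : b < 1) (n : ℕ) : 0 < rh a b n := by
  have h1 := rh_mono ha hb1 (Nat.zero_le n)
  rw [rh_zero] at h1
  linarith

lemma rh_tendsto {a : ℝ} (b : ℝ) (ha : 0 < a) : Tendsto (rh a b) atTop (nhds 1) := by
  have h1 : Tendsto (fun n : ℕ => (1 + a) ^ n) atTop atTop :=
    tendsto_pow_atTop_atTop_of_one_lt (by linarith)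
  have h2 : Tendsto (fun n : ℕ => (1 - b) / (1 + a) ^ n) atTop (nhds 0) :=
    h1.const_div_atTop _
  have h3 := h2.const_sub 1
  rw [sub_zero] at h3
  exact h3

/-- the squares of the outer radii -/
noncomputable def X (a b : ℝ) (n : ℕ) : ℝ := (a + (1 - a) * rh a b n) ^ 2

lemma X_mono {a b : ℝ} (ha : 0 < a) (ha1 : a < 1) (hb : 0 < b) (hb1 : b < 1) :
    Monotone (X a b) := by
  intro m n hmn
  unfold X
  have h1 := rh_mono ha hb1 hmn
  have h2 := rh_pos ha hb hb1 m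
  have h3 : (1 - a) * rh a b m ≤ (1 - a) * rh a b n := mul_le_mul_of_nonneg_left h1 (by linarith)
  have h4 : 0 < (1 - a) * rh a b m := mul_pos (by linarith) h2
  nlinarith

lemma X_gt {a b : ℝ} (ha : 0 < a) (ha1 : a < 1) (hb : 0 < b) (hb1 : b < 1) (n : ℕ) :
    a ^ 2 < X a b n := by
  unfold X
  have h4 : 0 < (1 - a) * rh a b n := mul_pos (by linarith) (rh_pos ha hb hb1 n)
  nlinarith

lemma X_tendsto {a : ℝ} (b : ℝ) (ha : 0 < a) : Tendsto (X a b) atTop (nhds 1) := by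
  have h := ((rh_tendsto b ha).const_mul (1 - a)).const_add a |>.pow 2
  have e : (a + (1 - a) * 1) ^ 2 = 1 := by ring
  rw [e] at h
  exact h

lemma exists_lt_X {a : ℝ} (b : ℝ) (ha : 0 < a) {s : ℝ} (hs : s < 1) : ∃ n, s < X a b n :=
  ((X_tendsto b ha).eventually (lt_mem_nhds hs)).exists

lemma exists_lt_rh {a : ℝ} (b : ℝ) (ha : 0 < a) {s : ℝ} (hs : s < 1) : ∃ n, s < rh a b n :=
  ((rh_tendsto b ha).eventually (lt_mem_nhds hs)).exists

/-- the property of the `n`-th approximation -/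
def Good (a b : ℝ) (n : ℕ) (W : ℝ → ℝ) : Prop :=
  ContDiff ℝ ∞ W ∧ ∀ ρ ∈ Icc 0 (rh a b n), Aop W ρ (a * (1 - ρ)) = 0

/-- a smooth function that vanishes from `s₀ < a²` on is good for some `b` -/
lemma good_initial {a s₀ : ℝ} (ha : 0 < a) (ha1 : a < 1) (hs₀ : s₀ < a ^ 2) {W : ℝ → ℝ}
    (hW : ContDiff ℝ ∞ W) (h0 : ∀ s, s₀ ≤ s → W s = 0) :
    ∃ b : ℝ, 0 < b ∧ b < 1 ∧ Good a b 0 W := by
  set t : ℝ := √(max s₀ 0) with ht
  have ht0 : 0 ≤ t := Real.sqrt_nonneg _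
  have ht2 : s₀ ≤ t ^ 2 := by
    rw [ht, Real.sq_sqrt (le_max_right _ _)]
    exact le_max_left _ _
  have hta : t < a := by
    rw [ht, Real.sqrt_lt' ha]
    exact max_lt hs₀ (by positivity)
  have h1a : 0 < 1 + a := by linarith
  refine ⟨(a - t) / (1 + a), div_pos (by linarith) h1a, ?_, hW, ?_⟩
  · rw [div_lt_one h1a]; linarith
  · intro ρ hρ
    rw [rh_zero] at hρ
    have hρ2 : (1 + a) * ρ ≤ a - t := by
      have := hρ.2
      rw [le_div_iff₀ h1a] at this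
      linarith
    have hρ1 : ρ ≤ 1 := by nlinarith [hρ.1]
    unfold Aop
    rw [intervalIntegral.integral_congr (g := fun _ => (0 : ℝ))]
    · simp
    · intro θ _
      simp only
      rw [h0, mul_zero]
      have hr : 0 ≤ a * (1 - ρ) := mul_nonneg ha.le (by linarith)
      have h1 : -(ρ * (a * (1 - ρ))) ≤ ρ * (a * (1 - ρ)) * cos θ := by
        have h0 : 0 ≤ ρ * (a * (1 - ρ)) := mul_nonneg hρ.1 hr
        nlinarith [neg_one_le_cos θ]
      have h2 : t ≤ a * (1 - ρ) - ρ := by nlinarith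
      have h3 : t ^ 2 ≤ (a * (1 - ρ) - ρ) ^ 2 := pow_le_pow_left₀ ht0 h2 2
      nlinarith

theorem exists_seq (hNEXT : S_NEXT) {a b : ℝ} (ha : 0 < a) (ha1 : a < 1) (hb : 0 < b) (hb1 : b < 1)
    {W0 : ℝ → ℝ} (hW0 : Good a b 0 W0) :
    ∃ W : ℕ → ℝ → ℝ, (∀ n, Good a b n (W n)) ∧ (∀ n, ∀ s ≤ X a b n, W (n + 1) s = W n s) ∧
      W 0 = W0 := by
  have step : ∀ (n : ℕ) (W : {W : ℝ → ℝ // Good a b n W}),
      ∃ W' : {W : ℝ → ℝ // Good a b (n + 1) W}, ∀ s ≤ X a b n, W'.1 s = W.1 s := by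
    intro n W
    obtain ⟨ψ, h1, h2, h3⟩ := hNEXT a (rh a b n) W.1 ha ha1 (rh_pos ha hb hb1 n) (rh_lt ha hb1 n)
      W.2.1 W.2.2
    refine ⟨⟨fun s => W.1 s + ψ s, W.2.1.add h1, ?_⟩, ?_⟩
    · rw [rh_succ b ha]
      exact h3
    · intro s hs
      simp only
      rw [h2 s hs, add_zero]
  choose nxt hnxt using step
  let seq : (n : ℕ) → {W : ℝ → ℝ // Good a b n W} :=
    fun n => Nat.rec ⟨W0, hW0⟩ (fun n W => nxt n W) n
  exact ⟨fun n => (seq n).1, fun n => (seq n).2, fun n s hs => hnxt n (seq n) s hs, rfl⟩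

theorem main (hNEXT : S_NEXT) (hCIRC : S_CIRC) (a : ℝ) (ha : 0 < a) (ha1 : a < 1) (s₀ : ℝ)
    (hs₀ : s₀ < a ^ 2) (W₀ : ℝ → ℝ) (hW₀ : ContDiff ℝ ∞ W₀) (h0 : ∀ s, s₀ ≤ s → W₀ s = 0) :
    ∃ f : ℂ → ℂ, ContDiffOn ℝ ∞ f (ball 0 1) ∧
      (∀ z ∈ ball (0 : ℂ) 1, (∮ ζ in C(z, a * (1 - ‖z‖)), f ζ) = 0) ∧
      (∀ w : ℂ, ‖w‖ ≤ a → f w = (starRingEnd ℂ w) * ((W₀ (‖w‖ ^ 2) : ℝ) : ℂ)) := by
  obtain ⟨b, hb, hb1, hgood⟩ := good_initial ha ha1 hs₀ hW₀ h0
  obtain ⟨W, hG, hs, hW0⟩ := exists_seq hNEXT ha ha1 hb hb1 hgood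
  -- compatibility
  have hcomp : ∀ n m, n ≤ m → ∀ s ≤ X a b n, W m s = W n s := by
    intro n m hnm
    induction m, hnm using Nat.le_induction with
    | base => intro s _; rfl
    | succ m hm ih =>
      intro s hsn
      rw [hs m s (hsn.trans (X_mono ha ha1 hb hb1 hm)), ih s hsn]
  classical
  let V : ℝ → ℝ := fun s => if h : ∃ n, s ≤ X a b n then W (Nat.find h) s else 0
  have hV : ∀ n, ∀ s ≤ X a b n, V s = W n s := by
    intro n s hsn
    have h : ∃ n, s ≤ X a b n := ⟨n, hsn⟩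
    simp only [V, dif_pos h]
    exact (hcomp _ _ (Nat.find_min' h hsn) s (Nat.find_spec h)).symm
  refine ⟨fun w => (starRingEnd ℂ w) * ((V (‖w‖ ^ 2) : ℝ) : ℂ), ?_, ?_, ?_⟩
  · intro w hw
    rw [mem_ball_zero_iff] at hw
    have hw2 : ‖w‖ ^ 2 < 1 := by
      have := norm_nonneg w
      nlinarith
    obtain ⟨n, hn⟩ := exists_lt_X b ha hw2
    apply ContDiffAt.contDiffWithinAt
    have hsm : ContDiff ℝ ∞ fun w : ℂ => (starRingEnd ℂ w) * ((W n (‖w‖ ^ 2) : ℝ) : ℂ) := by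
      apply ContDiff.mul
      · exact Complex.conjCLE.contDiff
      · exact Complex.ofRealCLM.contDiff.comp ((hG n).1.comp (contDiff_norm_sq ℝ))
    apply hsm.contDiffAt.congr_of_eventuallyEq
    have hopen : {w : ℂ | ‖w‖ ^ 2 < X a b n} ∈ nhds w :=
      (isOpen_lt (by fun_prop) continuous_const).mem_nhds hn
    filter_upwards [hopen] with v hv
    rw [hV n _ (le_of_lt hv)]
  · intro z hz
    rw [mem_ball_zero_iff] at hz
    obtain ⟨n, hn⟩ := exists_lt_rh b ha hz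
    have hr : 0 < a * (1 - ‖z‖) := mul_pos ha (by linarith)
    rw [circleIntegral.integral_congr hr.le (g := fun ζ => (starRingEnd ℂ ζ) * ((W n (‖ζ‖ ^ 2) : ℝ) : ℂ))]
    · rw [hCIRC (W n) z _ hr (hG n).1.continuous, (hG n).2 ‖z‖ ⟨norm_nonneg z, hn.le⟩]
      simp
    · intro ζ hζ
      have h2 : ‖ζ‖ ≤ a + (1 - a) * rh a b n := by
        have h3 : ‖ζ‖ ≤ ‖ζ - z‖ + ‖z‖ := by
          calc ‖ζ‖ = ‖(ζ - z) + z‖ := by ring_nf
            _ ≤ _ := norm_add_le _ _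
        rw [mem_sphere_iff_norm] at hζ
        rw [hζ] at h3
        have h4 : (1 - a) * ‖z‖ ≤ (1 - a) * rh a b n := mul_le_mul_of_nonneg_left hn.le (by linarith)
        linarith
      have h5 : ‖ζ‖ ^ 2 ≤ X a b n := by
        unfold X
        exact pow_le_pow_left₀ (norm_nonneg _) h2 2
      simp only
      rw [hV n _ h5]
  · intro w hw
    have h2 : ‖w‖ ^ 2 ≤ X a b 0 := by
      have h3 : ‖w‖ ^ 2 ≤ a ^ 2 := pow_le_pow_left₀ (norm_nonneg _) hw 2
      exact h3.trans (X_gt ha ha1 hb hb1 0).le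
    simp only
    rw [hV 0 _ h2, hW0]

/-- a function with these values is holomorphic only for `W₀ = 0` -/
theorem eq_zero_of_diff {a s₀ : ℝ} (ha : 0 < a) (ha1 : a < 1) (hs₀ : s₀ < a ^ 2) {W₀ : ℝ → ℝ}
    (h0 : ∀ s, s₀ ≤ s → W₀ s = 0) {f : ℂ → ℂ}
    (hf : ∀ w : ℂ, ‖w‖ ≤ a → f w = (starRingEnd ℂ w) * ((W₀ (‖w‖ ^ 2) : ℝ) : ℂ))
    (hd : DifferentiableOn ℂ f (ball 0 1)) : ∀ s, 0 < s → W₀ s = 0 := by
  have han : AnalyticOnNhd ℂ f (ball 0 1) := hd.analyticOnNhd isOpen_ball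
  have hpre : IsPreconnected (ball (0 : ℂ) 1) := (convex_ball 0 1).isPreconnected
  set t : ℝ := √(max s₀ 0) with ht
  have ht0 : 0 ≤ t := Real.sqrt_nonneg _
  have ht2 : s₀ ≤ t ^ 2 := by
    rw [ht, Real.sq_sqrt (le_max_right _ _)]
    exact le_max_left _ _
  have hta : t < a := by
    rw [ht, Real.sqrt_lt' ha]
    exact max_lt hs₀ (by positivity)
  set m : ℝ := (t + a) / 2 with hm
  have hm0 : 0 < m := by rw [hm]; linarith
  have hmem : ((m : ℝ) : ℂ) ∈ ball (0 : ℂ) 1 := by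
    rw [mem_ball_zero_iff, Complex.norm_real, Real.norm_eq_abs, abs_of_pos hm0]
    rw [hm]; linarith
  have hev : f =ᶠ[nhds ((m : ℝ) : ℂ)] 0 := by
    have h1 : {w : ℂ | t < ‖w‖ ∧ ‖w‖ < a} ∈ nhds ((m : ℝ) : ℂ) := by
      apply ((isOpen_lt continuous_const continuous_norm).inter
        (isOpen_lt continuous_norm continuous_const)).mem_nhds
      constructor
      · change t < ‖((m : ℝ) : ℂ)‖
        rw [Complex.norm_real, Real.norm_eq_abs, abs_of_pos hm0, hm]; linarith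
      · change ‖((m : ℝ) : ℂ)‖ < a
        rw [Complex.norm_real, Real.norm_eq_abs, abs_of_pos hm0, hm]; linarith
    filter_upwards [h1] with w hw
    rw [hf w hw.2.le, h0]
    · simp
    · exact ht2.trans (pow_le_pow_left₀ ht0 hw.1.le 2)
  have hz := han.eqOn_zero_of_preconnected_of_eventuallyEq_zero hpre hmem hev
  intro s hs
  rcases lt_or_ge s (a ^ 2) with h | h
  · have hq : √s ≤ a := by
      rw [Real.sqrt_le_left ha.le]
      exact h.le
    have hq0 : 0 < √s := Real.sqrt_pos.2 hs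
    have hn : ‖((√s : ℝ) : ℂ)‖ = √s := by
      rw [Complex.norm_real, Real.norm_eq_abs, abs_of_pos hq0]
    have h1 := hf ((√s : ℝ) : ℂ) (by rw [hn]; exact hq)
    have h2 : f ((√s : ℝ) : ℂ) = 0 := hz (by rw [mem_ball_zero_iff, hn]; linarith)
    rw [h2, hn, Real.sq_sqrt hs.le, Complex.conj_ofReal, ← Complex.ofReal_mul] at h1
    have h3 : √s * W₀ s = 0 := by exact_mod_cast h1.symm
    rcases mul_eq_zero.1 h3 with h4 | h4
    · exact absurd h4 hq0.ne'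
    · exact h4
  · exact h0 s (by linarith)

end Run7.h719.MO
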