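import Pool.Agent.Run7.h719.MO.Iface

set_option autoImplicit false

open MeasureTheory Set Filter Real
open scoped ContDiff

namespace Run7.h719.MO

theorem t_EXT : S_EXT := by
  intro φ δ hδ hφ
  refine ⟨fun x => Real.smoothTransition ((x - δ / 2) / (δ / 2)) * φ x, ?_, ?_⟩
  · rw [contDiff_iff_contDiffAt]
    intro x
    rcases lt_or_ge 0 x with hx | hx
    · have h1 : ContDiffAt ℝ ∞ φ x := (hφ x hx).contDiffAt (Ioi_mem_nhds hx)
      have h2 : ContDiffAt ℝ ∞ (fun x : ℝ => Real.smoothTransition ((x - δ / 2) / (δ / 2))) x :=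
        (Real.smoothTransition.contDiff.comp (by fun_prop)).contDiffAt
      exact h2.mul h1
    · have : (fun x => Real.smoothTransition ((x - δ / 2) / (δ / 2)) * φ x) =ᶠ[nhds x] fun _ => 0 := by
        filter_upwards [Iio_mem_nhds (show x < δ / 2 by linarith)] with y hy
        have hy' : y < δ / 2 := hy
        rw [Real.smoothTransition.zero_of_nonpos, zero_mul]
        exact div_nonpos_of_nonpos_of_nonneg (by linarith) (by linarith)
      exact contDiffAt_const.congr_of_eventuallyEq this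
  · intro x hx
    have : Real.smoothTransition ((x - δ / 2) / (δ / 2)) = 1 := by
      apply Real.smoothTransition.one_of_one_le
      rw [le_div_iff₀ (by linarith)]
      linarith
    simp only [this, one_mul]

lemma Aop_add {W ψ : ℝ → ℝ} (hW : Continuous W) (hψ : Continuous ψ) (ρ r : ℝ) :
    Aop (fun s => W s + ψ s) ρ r = Aop W ρ r + Aop ψ ρ r := by
  unfold Aop
  rw [← intervalIntegral.integral_add]
  · apply intervalIntegral.integral_congr
    intro θ _
    simp only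
    ring
  · apply Continuous.intervalIntegrable
    exact (by fun_prop : Continuous fun θ : ℝ => r + ρ * cos θ).mul (hW.comp (by fun_prop))
  · apply Continuous.intervalIntegrable
    exact (by fun_prop : Continuous fun θ : ℝ => r + ρ * cos θ).mul (hψ.comp (by fun_prop))

/-- if `ψ` vanishes up to the square of the outer radius the circle mean vanishes -/
lemma Aop_zero {ψ : ℝ → ℝ} {c ρ r : ℝ} (hρ : 0 ≤ ρ) (hr : 0 ≤ r) (h0 : ∀ s ≤ c, ψ s = 0)
    (hc : (ρ + r) ^ 2 ≤ c) : Aop ψ ρ r = 0 := by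
  unfold Aop
  rw [intervalIntegral.integral_congr (g := fun _ => (0 : ℝ))]
  · simp
  · intro θ _
    simp only
    rw [h0, mul_zero]
    have : ρ * r * cos θ ≤ ρ * r := mul_le_of_le_one_right (mul_nonneg hρ hr) (cos_le_one θ)
    nlinarith

theorem t_NEXT (hEXT : S_EXT) (hPAR : S_PAR) (hSTEP : S_STEP) (hCHG : S_CHG) : S_NEXT := by
  intro a ρ₀ W ha ha1 hρ₀ hρ₁ hW hW0
  have h1a : 0 < 1 - a := by linarith
  have h1a' : 0 < 1 + a := by linarith
  set ρe : ℝ := 1 - (1 - ρ₀) / (1 + a) with hρe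
  have hρe1 : (1 + a) * ρe = a + ρ₀ := by
    rw [hρe]; field_simp; ring
  have hρ0e : ρ₀ < ρe := by
    have : (1 - ρ₀) / (1 + a) < 1 - ρ₀ := div_lt_self (by linarith) (by linarith)
    rw [hρe]; linarith
  have hρe2 : ρe < 1 := by
    have : 0 < (1 - ρ₀) / (1 + a) := div_pos (by linarith) h1a'
    rw [hρe]; linarith
  set c : ℝ := (a + (1 - a) * ρ₀) ^ 2 with hc
  set D : ℝ := (a + (1 - a) * ρe) ^ 2 with hD
  have hca : a ^ 2 < c := by
    rw [hc]
    have : 0 < (1 - a) * ρ₀ := mul_pos h1a hρ₀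
    nlinarith
  have hcD : c < D := by
    rw [hc, hD]
    have h1 : (1 - a) * ρ₀ < (1 - a) * ρe := mul_lt_mul_of_pos_left hρ0e h1a
    have h2 : 0 < (1 - a) * ρ₀ := mul_pos h1a hρ₀
    nlinarith
  -- the square root
  obtain ⟨q, hq, hqe⟩ := hEXT (fun y => √y) (a ^ 2) (by positivity) (by
    intro y hy
    exact (Real.contDiffAt_sqrt (ne_of_gt hy)).contDiffWithinAt)
  set Q : ℝ → ℝ := fun x => (q x - a) / (1 - a) with hQ
  have hQs : ContDiff ℝ ∞ Q := (hq.sub contDiff_const).div_const _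
  set R : ℝ → ℝ := fun x => a * (1 - Q x) with hR
  have hRs : ContDiff ℝ ∞ R := contDiff_const.mul (contDiff_const.sub hQs)
  have hQx : ∀ ρ, 0 ≤ ρ → Q ((a + (1 - a) * ρ) ^ 2) = ρ := by
    intro ρ hρ
    have h1 : 0 ≤ (1 - a) * ρ := mul_nonneg h1a.le hρ
    simp only [hQ]
    rw [hqe _ (by nlinarith), Real.sqrt_sq (by linarith)]
    field_simp
    ring
  obtain ⟨ivr, hivr, hivre⟩ := hEXT (fun y => y⁻¹) (a * (1 - ρe)) (mul_pos ha (by linarith)) (by
    intro y hy
    exact (contDiffAt_inv ℝ (ne_of_gt hy)).contDiffWithinAt)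
  set δ : ℝ := c - (max a ρ₀) ^ 2 with hδ
  have hδ0 : 0 < δ := by
    have h1 : max a ρ₀ < a + (1 - a) * ρ₀ := by
      apply max_lt
      · nlinarith [mul_pos h1a hρ₀]
      · nlinarith
    have h2 : 0 ≤ max a ρ₀ := le_max_of_le_left ha.le
    rw [hδ, hc]
    nlinarith
  obtain ⟨isq, hisq, hisqe⟩ := hEXT (fun y => 1 / √y) δ hδ0 (by
    intro y hy
    have hy' : (0 : ℝ) < y := hy
    exact (contDiffAt_const.div (Real.contDiffAt_sqrt (ne_of_gt hy'))
      (ne_of_gt (Real.sqrt_pos.2 hy'))).contDiffWithinAt)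
  -- the geometric inequality
  have hgeo : ∀ ρ ∈ Icc ρ₀ ρe, δ ≤ 4 * (ρ * (a * (1 - ρ))) - ((a + (1 - a) * ρ) ^ 2 - c) := by
    intro ρ hρ
    have h1 : ρ - a * (1 - ρ) ≤ ρ₀ := by nlinarith [hρ.2]
    have h2 : -a ≤ ρ - a * (1 - ρ) := by nlinarith [hρ.1]
    have h3 : (ρ - a * (1 - ρ)) ^ 2 ≤ (max a ρ₀) ^ 2 := by
      apply sq_le_sq'
      · have := le_max_left a ρ₀; linarith
      · exact h1.trans (le_max_right _ _)
    rw [hδ]
    nlinarith
  set k : ℝ × ℝ → ℝ := fun p => (R p.2 + Q p.2 - (p.2 - p.1) * ivr (R p.2) / 2) *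
    isq (4 * (Q p.2 * R p.2) - (p.2 - p.1)) with hk
  have hks : ContDiff ℝ ∞ k := by
    have h1 : ContDiff ℝ ∞ fun p : ℝ × ℝ => R p.2 := hRs.comp contDiff_snd
    have h2 : ContDiff ℝ ∞ fun p : ℝ × ℝ => Q p.2 := hQs.comp contDiff_snd
    have h3 : ContDiff ℝ ∞ fun p : ℝ × ℝ => p.2 - p.1 := contDiff_snd.sub contDiff_fst
    have h4 : ContDiff ℝ ∞ fun p : ℝ × ℝ => ivr (R p.2) := hivr.comp h1
    have h5 : ContDiff ℝ ∞ fun p : ℝ × ℝ => isq (4 * (Q p.2 * R p.2) - (p.2 - p.1)) :=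
      hisq.comp ((contDiff_const.mul (h2.mul h1)).sub h3)
    exact ((h1.add h2).sub ((h3.mul h4).div_const 2)).mul h5
  -- every point of `[c, D]` is the square of an outer radius
  have hpar : ∀ x ∈ Icc c D, ∃ ρ ∈ Icc ρ₀ ρe, x = (a + (1 - a) * ρ) ^ 2 := by
    intro x hx
    have hx0 : 0 ≤ x := (sq_nonneg _).trans hx.1
    refine ⟨(√x - a) / (1 - a), ⟨?_, ?_⟩, ?_⟩
    · rw [le_div_iff₀ h1a]
      have : a + (1 - a) * ρ₀ ≤ √x := Real.le_sqrt_of_sq_le hx.1
      linarith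
    · rw [div_le_iff₀ h1a]
      have : √x ≤ a + (1 - a) * ρe := by
        rw [Real.sqrt_le_left (by nlinarith)]
        exact hx.2
      linarith
    · have h1 : a + (1 - a) * ((√x - a) / (1 - a)) = √x := by field_simp; ring
      rw [h1, Real.sq_sqrt hx0]
  have hkpos : ∀ x ∈ Icc c D, 0 < k (x, x) := by
    intro x hx
    obtain ⟨ρ, hρ, rfl⟩ := hpar x hx
    have hρ0 : 0 < ρ := hρ₀.trans_le hρ.1
    have hρ1 : ρ < 1 := hρ.2.trans_lt hρe2
    have hr : 0 < a * (1 - ρ) := mul_pos ha (by linarith)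
    simp only [hk, sub_self, zero_mul, zero_div, sub_zero, hR, hQx ρ hρ0.le]
    have h1 : δ ≤ 4 * (ρ * (a * (1 - ρ))) := by
      have := hgeo ρ hρ
      linarith [hx.1]
    rw [hisqe _ h1]
    have h2 : 0 < 4 * (ρ * (a * (1 - ρ))) := by positivity
    have h3 : 0 < √(4 * (ρ * (a * (1 - ρ)))) := Real.sqrt_pos.2 h2
    positivity
  -- the right hand side
  set g : ℝ → ℝ := fun ρ => Aop W ρ (a * (1 - ρ)) with hg
  have hgs : ContDiff ℝ ∞ g := by
    have := hPAR.1 0 π (fun p : ℝ × ℝ => (a * (1 - p.1) + p.1 * cos p.2) *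
      W (p.1 ^ 2 + (a * (1 - p.1)) ^ 2 + 2 * p.1 * (a * (1 - p.1)) * cos p.2)) (by
        apply ContDiff.mul
        · fun_prop
        · exact hW.comp (by fun_prop))
    exact this
  set G : ℝ → ℝ := fun x => if x ≤ c then 0 else -g (Q x) with hG
  have hG0 : ∀ x ≤ c, G x = 0 := fun x hx => by simp only [hG, if_pos hx]
  have hG1 : ∀ x, a ^ 2 < x → G x = -g (Q x) := by
    intro x hx
    by_cases h : x ≤ c
    · rw [hG0 x h]
      have h1 : Q x = (√x - a) / (1 - a) := by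
        simp only [hQ]
        rw [hqe x hx.le]
      have h2 : a ≤ √x := Real.le_sqrt_of_sq_le hx.le
      have h3 : √x ≤ a + (1 - a) * ρ₀ := by
        rw [Real.sqrt_le_left (by nlinarith)]
        exact h
      have h4 : Q x ∈ Icc 0 ρ₀ := by
        rw [h1]
        constructor
        · exact div_nonneg (by linarith) h1a.le
        · rw [div_le_iff₀ h1a]; linarith
      have := hW0 _ h4
      simp only [hg, this, neg_zero]
    · simp only [hG, if_neg h]
  have hGs : ContDiff ℝ ∞ G := by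
    rw [contDiff_iff_contDiffAt]
    intro x
    rcases lt_or_ge x c with hx | hx
    · apply contDiffAt_const (c := (0 : ℝ)) |>.congr_of_eventuallyEq
      filter_upwards [Iio_mem_nhds hx] with y hy
      exact hG0 y (le_of_lt hy)
    · have h1 : ContDiffAt ℝ ∞ (fun x => -g (Q x)) x := ((hgs.comp hQs).neg).contDiffAt
      apply h1.congr_of_eventuallyEq
      filter_upwards [Ioi_mem_nhds (hca.trans_le hx)] with y hy
      exact hG1 y hy
  obtain ⟨ψ, hψs, hψ0, hψe⟩ := hSTEP c D k G hcD hks hkpos hGs hG0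
  refine ⟨ψ, hψs, hψ0, ?_⟩
  intro ρ hρ
  have hρ1 : ρ < 1 := hρ.2.trans_lt hρe2
  have hr : 0 < a * (1 - ρ) := mul_pos ha (by linarith)
  have hsum : ρ + a * (1 - ρ) = a + (1 - a) * ρ := by ring
  rw [Aop_add hW.continuous hψs.continuous]
  rcases le_or_gt ρ ρ₀ with hle | hgt
  · rw [hW0 ρ ⟨hρ.1, hle⟩, Aop_zero hρ.1 hr.le hψ0, add_zero]
    rw [hsum, hc]
    have h1 : 0 ≤ (1 - a) * ρ := mul_nonneg h1a.le hρ.1
    have h2 : (1 - a) * ρ ≤ (1 - a) * ρ₀ := mul_le_mul_of_nonneg_left hle h1a.le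
    nlinarith
  · set x : ℝ := (a + (1 - a) * ρ) ^ 2 with hx
    set r : ℝ := a * (1 - ρ) with hrdef
    have hρ0 : 0 < ρ := hρ₀.trans hgt
    have hcx : c < x := by
      rw [hc, hx]
      have h1 : (1 - a) * ρ₀ < (1 - a) * ρ := mul_lt_mul_of_pos_left hgt h1a
      have h2 : 0 < (1 - a) * ρ₀ := mul_pos h1a hρ₀
      nlinarith
    have hxD : x ≤ D := by
      rw [hD, hx]
      have h1 : (1 - a) * ρ ≤ (1 - a) * ρe := mul_le_mul_of_nonneg_left hρ.2 h1a.le
      have h2 : 0 < (1 - a) * ρ := mul_pos h1a hρ0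
      nlinarith
    have hQρ : Q x = ρ := hQx ρ hρ0.le
    have hRρ : R x = r := by simp only [hR, hQρ, hrdef]
    have hrδ : a * (1 - ρe) ≤ r := by
      rw [hrdef]
      exact mul_le_mul_of_nonneg_left (by linarith [hρ.2]) ha.le
    have h1 : Aop ψ ρ r = ∫ θ in (0 : ℝ)..π, (fun u => r + ρ - u * r⁻¹ / 2) (2 * (ρ * r) * (1 - cos θ)) *
        ψ (x - 2 * (ρ * r) * (1 - cos θ)) := by
      unfold Aop
      apply intervalIntegral.integral_congr
      intro θ _
      have e1 : r + ρ * cos θ = r + ρ - 2 * (ρ * r) * (1 - cos θ) * r⁻¹ / 2 := by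
        field_simp
        ring
      have e2 : ρ ^ 2 + r ^ 2 + 2 * ρ * r * cos θ = x - 2 * (ρ * r) * (1 - cos θ) := by
        rw [hx, ← hsum]
        ring
      simp only
      rw [← e1, e2]
    have h2 := hCHG (ρ * r) x c δ (fun u => r + ρ - u * r⁻¹ / 2) ψ isq (mul_pos hρ0 hr) hδ0
      (hgeo ρ ⟨hgt.le, hρ.2⟩) (by fun_prop) hψs.continuous hisq.continuous hisqe hψ0
    rw [h1, h2]
    have h3 : (∫ σ : ℝ, (fun u => r + ρ - u * r⁻¹ / 2) (σ ^ 2) * ψ (x - σ ^ 2) *
        isq (4 * (ρ * r) - σ ^ 2)) = Bop k ψ x := by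
      unfold Bop
      congr 1
      funext σ
      simp only [hk, hQρ, hRρ]
      rw [hivre r hrδ]
      have e3 : x - (x - σ ^ 2) = σ ^ 2 := by ring
      rw [e3]
      ring
    rw [h3, hψe x hxD, hG1 x (hca.trans hcx), hQρ]
    simp only [hg]
    ring

end Run7.h719.MO
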