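import Pool.Agent.Run7.h719.MO.Step
import Pool.Agent.Run7.h719.MO.Next
import Pool.Agent.Run7.h719.MO.Fin
import Pool.Agent.Run7.h592.MO.CIRC
import Pool.Agent.Run7.h592.MO.VOL
import Pool.Agent.Run7.h639.MO.INJ
import Pool.Agent.Run7.h760.MO.POL
import Pool.Agent.Run7.h817.MO.AG
import Pool.Agent.Run7.h817.MO.BOOT
import Pool.Agent.Run7.h817.MO.PAR
import Pool.Agent.Run7.h842.MO.CHG

set_option autoImplicit false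

open MeasureTheory Set Filter Real Metric
open scoped ContDiff

namespace Run7.h719.MO

theorem step : S_STEP :=
  t_STEP t_EXT h817.MO.t_PAR h817.MO.t_DER (h817.MO.t_BOOT h817.MO.t_DER) h592.MO.t_VOL
    h760.MO.t_POL (h639.MO.t_INJ h760.MO.t_POL) (h817.MO.t_AG h817.MO.t_PAR)

theorem next : S_NEXT := t_NEXT t_EXT h817.MO.t_PAR step h842.MO.t_CHG

theorem main' (a : ℝ) (ha : 0 < a) (ha1 : a < 1) (s₀ : ℝ)
    (hs₀ : s₀ < a ^ 2) (W₀ : ℝ → ℝ) (hW₀ : ContDiff ℝ ∞ W₀) (h0 : ∀ s, s₀ ≤ s → W₀ s = 0) :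
    ∃ f : ℂ → ℂ, ContDiffOn ℝ ∞ f (ball 0 1) ∧
      (∀ z ∈ ball (0 : ℂ) 1, (∮ ζ in C(z, a * (1 - ‖z‖)), f ζ) = 0) ∧
      (∀ w : ℂ, ‖w‖ ≤ a → f w = (starRingEnd ℂ w) * ((W₀ (‖w‖ ^ 2) : ℝ) : ℂ)) :=
  main next h592.MO.t_CIRC a ha ha1 s₀ hs₀ W₀ hW₀ h0

end Run7.h719.MO
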