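import Mathlib

/-!
# Interface: a smooth non-holomorphic function on the open disc with vanishing integrals over all
circles of centre `z` and radius `a (1 - |z|)` (`0 < a < 1`).   (MP_9de1de_an, Q2)

Every piece is a closed `Prop` with a complete proof in its doc string.  Please prove
`theorem t_XXX : S_XXX` (or `theorem t_XXX (h : S_YYY) : S_XXX` where the dependence is announced) in
`Pool/Agent/Run7/<you>/MO/XXX.lean`, importing `Pool.Agent.Run7.h719.MO.Iface`.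
-/

set_option autoImplicit false

open MeasureTheory Set Filter Real
open scoped ContDiff

namespace Run7.h719.MO

/-- EXT. A function that is smooth on `(0, ∞)` agrees on `[δ, ∞)` with a smooth function on `ℝ`.
Proof: multiply by `Real.smoothTransition ((x - δ/2) / (δ/2))`, which is `0` for `x ≤ δ/2` and `1`
for `x ≥ δ`. Smooth at `x > 0` as a product, and identically zero near every `x < δ/2`. -/
def S_EXT : Prop := ∀ (φ : ℝ → ℝ) (δ : ℝ), 0 < δ → ContDiffOn ℝ ∞ φ (Ioi 0) →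
  ∃ ψ : ℝ → ℝ, ContDiff ℝ ∞ ψ ∧ ∀ x, δ ≤ x → ψ x = φ x

/-- PAR. Parametric integrals of smooth functions over a compact interval are smooth.
Proof: by induction on `n` for all (complete) target spaces: `ContDiff ℝ n F` implies `ContDiff ℝ n` of
the integral; `contDiff_succ_iff_hasFDerivAt`-type induction with
`hasFDerivAt_integral_of_dominated_of_fderiv_le` (bounds on `closedBall p 1 ×ˢ uIcc a b`, compact).
(Alternatively from `contDiffOn_convolution_right_with_param`.) -/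
def S_PAR : Prop :=
  (∀ (a b : ℝ) (F : ℝ × ℝ → ℝ), ContDiff ℝ ∞ F → ContDiff ℝ ∞ (fun x : ℝ => ∫ t in a..b, F (x, t))) ∧
  (∀ (a b : ℝ) (F : (ℝ × ℝ) × ℝ → ℝ), ContDiff ℝ ∞ F →
    ContDiff ℝ ∞ (fun p : ℝ × ℝ => ∫ t in a..b, F (p, t)))

/-- DER. Leibniz rule with a variable end point.
Proof: `N (τ, x) = N (τ, τ) + ∫ y in τ..x, N_y (τ, y)`, exchange the integrals over the triangle (or:
`F (x, y) = ∫ τ in c..x, N (τ, y) * Ψ τ` has continuous partial derivatives; or directly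
`F(x+h) - F(x)`: the end point part by the fundamental theorem, the other by dominated
differentiation, using that `N_y` is bounded on compact sets). -/
def S_DER : Prop := ∀ (c : ℝ) (N : ℝ × ℝ → ℝ) (Ψ : ℝ → ℝ), ContDiff ℝ ∞ N → Continuous Ψ → ∀ x : ℝ,
  HasDerivAt (fun x => ∫ τ in c..x, N (τ, x) * Ψ τ)
    (N (x, x) * Ψ x + ∫ τ in c..x, deriv (fun y => N (τ, y)) x * Ψ τ) x

/-- BOOT (may use `S_DER` as a hypothesis). Continuous solutions of a Volterra equation with smooth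
data are smooth.
Proof: P(n): for all smooth `N` and all `Ψ` of class `C^n`, `I N Ψ = fun x => ∫ τ in c..x, N (τ, x) * Ψ τ`
is of class `C^(n+1)`. By `S_DER` its derivative is `N (x, x) * Ψ x + I N' Ψ x` with `N' = ∂N/∂y` smooth;
`I N' Ψ` is continuous (n = 0), and `C^n` by P(n-1). Then `Ψ = h + I N Ψ` is `C^n` for all `n`. -/
def S_BOOT : Prop := ∀ (c : ℝ) (N : ℝ × ℝ → ℝ) (Ψ h : ℝ → ℝ), ContDiff ℝ ∞ N → Continuous Ψ →
  ContDiff ℝ ∞ h → (∀ x, Ψ x = h x + ∫ τ in c..x, N (τ, x) * Ψ τ) → ContDiff ℝ ∞ Ψ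

/-- VOL. The Volterra equation of the second kind.
Proof: let `|N| ≤ M`, `L = 2 M + 1`. On the Banach space of bounded continuous functions `Φ` on `ℝ` the map
`T Φ x = exp (-L (x - c)) * h x + ∫ τ in c..max x c, N (τ, x) * exp (-L (x - τ)) * Φ τ` (for `x ≥ c`; use
`exp (-L (max x c - τ))` to have it for all `x`; it vanishes for `x ≤ c`) is a contraction with
constant `1/2`; bounded because `h` and `N` have compact support. Take the fixed point and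
`Ψ x = exp (L (x - c)) * Φ x`. -/
def S_VOL : Prop := ∀ (c : ℝ) (N : ℝ × ℝ → ℝ) (h : ℝ → ℝ), Continuous N → HasCompactSupport N →
  Continuous h → HasCompactSupport h → (∀ x ≤ c, h x = 0) →
  ∃ Ψ : ℝ → ℝ, Continuous Ψ ∧ (∀ x ≤ c, Ψ x = 0) ∧ ∀ x, Ψ x = h x + ∫ τ in c..x, N (τ, x) * Ψ τ

/-- the operator of Abel type -/
noncomputable def Bop (k : ℝ × ℝ → ℝ) (Ψ : ℝ → ℝ) (x : ℝ) : ℝ :=
  ∫ σ : ℝ, Ψ (x - σ ^ 2) * k (x - σ ^ 2, x)

/-- the smooth kernel after an Abel transform, `p = (τ, x)` -/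
noncomputable def Lk (k : ℝ × ℝ → ℝ) (p : ℝ × ℝ) : ℝ :=
  ∫ φ in (-π)..π, k (p.1, p.2 - (p.2 - p.1) * cos φ ^ 2) / 2

/-- POL. The Abel transform of `Bop k Ψ` in polar coordinates.
Proof: for `x ≤ c` both sides vanish. Otherwise the left side is the integral over `ℝ × ℝ` of the
continuous function `(η, σ) ↦ Ψ (x - η² - σ²) k (x - η² - σ², x - η²)`, which vanishes for `η² + σ² ≥ x - c`
(compact support, Fubini `integral_prod`). By `integral_comp_polarCoord_symm` it is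
`∫ R > 0, R * Ψ (x - R²) * ∫ φ in -π..π, k (x - R², x - R² cos² φ)`, and `τ = x - R²`. -/
def S_POL : Prop := ∀ (c : ℝ) (k : ℝ × ℝ → ℝ) (Ψ : ℝ → ℝ), Continuous k → Continuous Ψ →
  (∀ x ≤ c, Ψ x = 0) → ∀ x, (∫ η : ℝ, Bop k Ψ (x - η ^ 2)) = ∫ τ in c..x, Lk k (τ, x) * Ψ τ

/-- INJ (may use `S_POL` as a hypothesis). The Abel transform is injective.
Proof: `S_POL` with `k = 1`: the left side vanishes for `x ≤ D` (all arguments are `≤ D`), `Lk 1 = π`;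
hence `∫ τ in c..x, G τ = 0` for all `x ≤ D`, and `G = 0` on `(-∞, D]` (differentiate for `x < D`,
continuity at `D`). -/
def S_INJ : Prop := ∀ (c D : ℝ) (G : ℝ → ℝ), Continuous G → (∀ x ≤ c, G x = 0) →
  (∀ x ≤ D, (∫ η : ℝ, G (x - η ^ 2)) = 0) → ∀ x ≤ D, G x = 0

/-- AG (may use `S_PAR` as a hypothesis). The Abel transform of a smooth function is smooth.
Proof: for `x < c + M²` the integrand vanishes for `|η| ≥ M`, so the integral is
`∫ η in -M..M, G (x - η²)`, smooth by `S_PAR.1`; smoothness is local. -/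
def S_AG : Prop := ∀ (c : ℝ) (G : ℝ → ℝ), ContDiff ℝ ∞ G → (∀ x ≤ c, G x = 0) →
  ContDiff ℝ ∞ (fun x => ∫ η : ℝ, G (x - η ^ 2)) ∧ ∀ x ≤ c, (∫ η : ℝ, G (x - η ^ 2)) = 0

/-- STEP (helper719 does the assembly from the pieces above). -/
def S_STEP : Prop := ∀ (c D : ℝ) (k : ℝ × ℝ → ℝ) (G : ℝ → ℝ), c < D → ContDiff ℝ ∞ k →
  (∀ x ∈ Icc c D, 0 < k (x, x)) → ContDiff ℝ ∞ G → (∀ x ≤ c, G x = 0) →
  ∃ Ψ : ℝ → ℝ, ContDiff ℝ ∞ Ψ ∧ (∀ x ≤ c, Ψ x = 0) ∧ ∀ x ≤ D, Bop k Ψ x = G x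

/-- CHG. Change of variables.
Proof: `σ = 2 √p sin (θ/2)`, so `σ² = 2 p (1 - cos θ)`, `dσ = √p cos (θ/2) dθ`, and where `ψ ≠ 0` we have
`4 p - σ² = 4 p cos² (θ/2) ≥ δ`, `i (4 p - σ²) = 1 / (2 √p cos (θ/2))`: the left side is
`∫ σ in 0..2√p, 2 w (σ²) ψ (x - σ²) i (4 p - σ²)` (`intervalIntegral.integral_comp_mul_deriv`), the
integrand vanishes for `σ ≥ 2 √p` and is even. -/
def S_CHG : Prop := ∀ (p x c δ : ℝ) (w ψ i : ℝ → ℝ), 0 < p → 0 < δ → δ ≤ 4 * p - (x - c) →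
  Continuous w → Continuous ψ → Continuous i → (∀ y, δ ≤ y → i y = 1 / √y) → (∀ y ≤ c, ψ y = 0) →
  (∫ θ in (0 : ℝ)..π, w (2 * p * (1 - cos θ)) * ψ (x - 2 * p * (1 - cos θ))) =
    ∫ σ : ℝ, w (σ ^ 2) * ψ (x - σ ^ 2) * i (4 * p - σ ^ 2)

/-- the circle means of the function `conj w * W (|w|²)` -/
noncomputable def Aop (W : ℝ → ℝ) (ρ r : ℝ) : ℝ :=
  ∫ θ in (0 : ℝ)..π, (r + ρ * cos θ) * W (ρ ^ 2 + r ^ 2 + 2 * ρ * r * cos θ)

/-- CIRC. The circle integral.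
Proof: `ζ = z + r e^(iθ)`, `dζ = i (ζ - z) dθ`, `(ζ - z) conj ζ = r e^(iθ) conj z + r²`; with
`z = ρ e^(iγ)` it is `r² + r ρ e^(i(θ-γ))` and `|ζ|² = ρ² + r² + 2 ρ r cos (θ - γ)`. Shift by `γ`
(`Function.Periodic.intervalIntegral_add_eq`), the sine part is odd, the cosine part is even. -/
def S_CIRC : Prop := ∀ (W : ℝ → ℝ) (z : ℂ) (r : ℝ), 0 < r → Continuous W →
  (∮ ζ in C(z, r), (starRingEnd ℂ ζ) * ((W (‖ζ‖ ^ 2) : ℝ) : ℂ)) =
    2 * Complex.I * ((r * Aop W ‖z‖ r : ℝ) : ℂ)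

/-- NEXT (helper719). The induction step. -/
def S_NEXT : Prop := ∀ (a ρ₀ : ℝ) (W : ℝ → ℝ), 0 < a → a < 1 → 0 < ρ₀ → ρ₀ < 1 → ContDiff ℝ ∞ W →
  (∀ ρ ∈ Icc 0 ρ₀, Aop W ρ (a * (1 - ρ)) = 0) →
  ∃ ψ : ℝ → ℝ, ContDiff ℝ ∞ ψ ∧ (∀ s ≤ (a + (1 - a) * ρ₀) ^ 2, ψ s = 0) ∧
    ∀ ρ ∈ Icc 0 (1 - (1 - ρ₀) / (1 + a)), Aop (fun s => W s + ψ s) ρ (a * (1 - ρ)) = 0

end Run7.h719.MO
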