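import Pool.Agent.Run7.h719.MO.Iface

set_option autoImplicit false

open MeasureTheory Set Filter Real
open scoped ContDiff

namespace Run7.h719.MO

/-- values of a function vanishing on `(-∞, c]` at `x - η²` -/
lemma supp_sq {F : ℝ → ℝ} {c x : ℝ} (h0 : ∀ y ≤ c, F y = 0) {M : ℝ} (hM : 0 ≤ M) (hx : x - c ≤ M ^ 2)
    {η : ℝ} (hη : M ≤ |η|) : F (x - η ^ 2) = 0 := by
  apply h0
  have : M ^ 2 ≤ η ^ 2 := by
    rw [← sq_abs η]
    exact pow_le_pow_left₀ hM hη 2
  linarith

lemma integral_line_eq {g : ℝ → ℝ} {M : ℝ} (hM : 0 ≤ M) (h0 : ∀ η, M ≤ |η| → g η = 0) :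
    (∫ η : ℝ, g η) = ∫ η in (-M)..M, g η := by
  rw [intervalIntegral.integral_of_le (by linarith), ← integral_indicator measurableSet_Ioc]
  congr 1
  funext η
  by_cases h : η ∈ Ioc (-M) M
  · rw [indicator_of_mem h]
  · rw [indicator_of_notMem h]
    apply h0
    by_contra hcon
    push Not at hcon
    rw [abs_lt] at hcon
    exact h ⟨hcon.1, hcon.2.le⟩

lemma integrable_line {g : ℝ → ℝ} (hg : Continuous g) {M : ℝ} (h0 : ∀ η, M ≤ |η| → g η = 0) :
    Integrable g := by
  apply hg.integrable_of_hasCompactSupport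
  apply HasCompactSupport.intro (isCompact_Icc (a := -M) (b := M))
  intro η hη
  apply h0
  by_contra hcon
  push Not at hcon
  rw [abs_lt] at hcon
  exact hη ⟨hcon.1.le, hcon.2.le⟩

/-- the Abel type operator is continuous -/
lemma Bop_continuous {k : ℝ × ℝ → ℝ} {Ψ : ℝ → ℝ} {c : ℝ} (hk : Continuous k) (hΨ : Continuous Ψ)
    (h0 : ∀ x ≤ c, Ψ x = 0) : Continuous (Bop k Ψ) := by
  rw [continuous_iff_continuousAt]
  intro x₀
  set M : ℝ := √(|x₀ - c| + 1) with hM
  have hM0 : 0 ≤ M := Real.sqrt_nonneg _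
  have hM2 : M ^ 2 = |x₀ - c| + 1 := Real.sq_sqrt (by positivity)
  have hcont : Continuous fun x : ℝ => ∫ σ in (-M)..M, Ψ (x - σ ^ 2) * k (x - σ ^ 2, x) := by
    apply intervalIntegral.continuous_parametric_intervalIntegral_of_continuous'
    exact (hΨ.comp (by fun_prop)).mul (hk.comp (by fun_prop))
  apply hcont.continuousAt.congr
  filter_upwards [Iio_mem_nhds (show x₀ < x₀ + 1 by linarith)] with x hx
  unfold Bop
  rw [integral_line_eq hM0]
  intro η hη
  rw [supp_sq h0 hM0 _ hη, zero_mul]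
  have hx' : x < x₀ + 1 := hx
  have := le_abs_self (x₀ - c)
  linarith

lemma Bop_zero {k : ℝ × ℝ → ℝ} {Ψ : ℝ → ℝ} {c : ℝ}
    (h0 : ∀ x ≤ c, Ψ x = 0) : ∀ x ≤ c, Bop k Ψ x = 0 := by
  intro x hx
  unfold Bop
  rw [← integral_zero ℝ ℝ]
  congr 1
  funext σ
  rw [h0 _ (by nlinarith [sq_nonneg σ]), zero_mul]

/-- the partial derivative in the second variable -/
lemma deriv_snd_eq {L : ℝ × ℝ → ℝ} (hL : ContDiff ℝ ∞ L) (τ x : ℝ) :
    deriv (fun y => L (τ, y)) x = fderiv ℝ L (τ, x) (0, 1) := by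
  have h1 : HasFDerivAt L (fderiv ℝ L (τ, x)) (τ, x) :=
    (hL.differentiable (by simp)).differentiableAt.hasFDerivAt
  have h2 : HasDerivAt (fun y : ℝ => ((τ, y) : ℝ × ℝ)) (0, 1) x :=
    (hasDerivAt_const x τ).prodMk (hasDerivAt_id x)
  exact (h1.comp_hasDerivAt x h2).deriv

lemma contDiff_deriv_snd {L : ℝ × ℝ → ℝ} (hL : ContDiff ℝ ∞ L) :
    ContDiff ℝ ∞ (fun p : ℝ × ℝ => deriv (fun y => L (p.1, y)) p.2) := by
  have : (fun p : ℝ × ℝ => deriv (fun y => L (p.1, y)) p.2) =
      fun p : ℝ × ℝ => fderiv ℝ L p (0, 1) := by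
    funext p
    rw [deriv_snd_eq hL]
  rw [this]
  have h1 : ContDiff ℝ ∞ (fderiv ℝ L) := hL.fderiv_right (by simp)
  exact h1.clm_apply contDiff_const

theorem t_STEP (hEXT : S_EXT) (hPAR : S_PAR) (hDER : S_DER) (hBOOT : S_BOOT) (hVOL : S_VOL)
    (hPOL : S_POL) (hINJ : S_INJ) (hAG : S_AG) : S_STEP := by
  intro c D k G hcD hk hkpos hG hG0
  -- the kernel
  have hL : ContDiff ℝ ∞ (Lk k) := by
    have := hPAR.2 (-π) π (fun q : (ℝ × ℝ) × ℝ => k (q.1.1, q.1.2 - (q.1.2 - q.1.1) * cos q.2 ^ 2) / 2)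
      (by
        apply ContDiff.div_const
        apply hk.comp
        fun_prop)
    exact this
  have hLd : ∀ x, Lk k (x, x) = π * k (x, x) := by
    intro x
    unfold Lk
    simp only [sub_self, zero_mul, sub_zero]
    rw [intervalIntegral.integral_const, smul_eq_mul]
    ring
  have hLdc : Continuous fun x : ℝ => Lk k (x, x) := hL.continuous.comp (by fun_prop)
  obtain ⟨x1, hx1, hmin⟩ := (isCompact_Icc (a := c) (b := D)).exists_isMinOn
    (nonempty_Icc.2 hcD.le) hLdc.continuousOn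
  set δ : ℝ := Lk k (x1, x1) with hδ
  have hδ0 : 0 < δ := by rw [hδ, hLd]; exact mul_pos Real.pi_pos (hkpos x1 hx1)
  have hδle : ∀ x ∈ Icc c D, δ ≤ Lk k (x, x) := fun x hx => hmin hx
  obtain ⟨iv, hiv, hive⟩ := hEXT (fun y => y⁻¹) δ hδ0 (by
    intro y hy
    exact (contDiffAt_inv ℝ (ne_of_gt hy)).contDiffWithinAt)
  -- the right hand side
  set H : ℝ → ℝ := fun x => ∫ η : ℝ, G (x - η ^ 2) with hH
  obtain ⟨hHs, hH0⟩ := hAG c G hG hG0
  change ContDiff ℝ ∞ H at hHs
  change ∀ x ≤ c, H x = 0 at hH0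
  have hHd : ContDiff ℝ ∞ (deriv H) := by
    have : ContDiff ℝ (∞ + 1) H := by simpa using hHs
    exact (contDiff_succ_iff_deriv.1 this).2.2
  have hHd0 : ∀ x ≤ c, deriv H x = 0 := by
    have h1 : ∀ x < c, deriv H x = 0 := by
      intro x hx
      have : H =ᶠ[nhds x] fun _ => 0 := by
        filter_upwards [Iio_mem_nhds hx] with y hy
        exact hH0 y (le_of_lt hy)
      rw [this.deriv_eq]
      simp
    intro x hx
    rcases lt_or_eq_of_le hx with h | h
    · exact h1 x h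
    · rw [h]
      have hcl : closure (Iio c) = Iic c := closure_Iio c
      have hset : IsClosed {y : ℝ | deriv H y = 0} := isClosed_eq hHd.continuous continuous_const
      have hsub : Iio c ⊆ {y : ℝ | deriv H y = 0} := fun y hy => h1 y hy
      have := closure_minimal hsub hset
      rw [hcl] at this
      exact this (mem_Iic.2 le_rfl)
  -- cut-off
  let bump : ContDiffBump ((c + D) / 2) := ⟨(D - c) / 2 + 1, (D - c) / 2 + 2, by linarith, by linarith⟩
  set χ : ℝ → ℝ := fun x => bump x with hχ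
  have hχs : ContDiff ℝ ∞ χ := bump.contDiff
  have hχc : HasCompactSupport χ := bump.hasCompactSupport
  have hχ1 : ∀ x ∈ Icc c D, χ x = 1 := by
    intro x hx
    apply bump.one_of_mem_closedBall
    rw [Metric.mem_closedBall, Real.dist_eq, abs_le]
    change -((D - c) / 2 + 1) ≤ _ ∧ _ ≤ (D - c) / 2 + 1
    constructor <;> linarith [hx.1, hx.2]
  set dL : ℝ × ℝ → ℝ := fun p => deriv (fun y => Lk k (p.1, y)) p.2 with hdL
  have hdLs : ContDiff ℝ ∞ dL := contDiff_deriv_snd hL
  set N : ℝ × ℝ → ℝ := fun p => (-(dL p * iv (Lk k (p.2, p.2)))) * (χ p.1 * χ p.2) with hN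
  have hNs : ContDiff ℝ ∞ N := by
    have h1 : ContDiff ℝ ∞ fun p : ℝ × ℝ => iv (Lk k (p.2, p.2)) :=
      hiv.comp (hL.comp (by fun_prop))
    have h2 : ContDiff ℝ ∞ fun p : ℝ × ℝ => χ p.1 := hχs.comp (by fun_prop)
    have h3 : ContDiff ℝ ∞ fun p : ℝ × ℝ => χ p.2 := hχs.comp (by fun_prop)
    exact ((hdLs.mul h1).neg).mul (h2.mul h3)
  have hNc : HasCompactSupport N := by
    have hK : IsCompact (tsupport χ ×ˢ tsupport χ) := hχc.isCompact.prod hχc.isCompact
    apply HasCompactSupport.intro hK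
    intro p hp
    have : χ p.1 * χ p.2 = 0 := by
      by_contra hne
      have h1 : χ p.1 ≠ 0 := left_ne_zero_of_mul hne
      have h2 : χ p.2 ≠ 0 := right_ne_zero_of_mul hne
      exact hp ⟨subset_tsupport _ h1, subset_tsupport _ h2⟩
    simp only [hN, this, mul_zero]
  set h : ℝ → ℝ := fun x => deriv H x * iv (Lk k (x, x)) * χ x with hh
  have hhs : ContDiff ℝ ∞ h := by
    have h1 : ContDiff ℝ ∞ fun x : ℝ => iv (Lk k (x, x)) := hiv.comp (hL.comp (by fun_prop))
    exact (hHd.mul h1).mul hχs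
  have hhc : HasCompactSupport h := hχc.mul_left
  have hh0 : ∀ x ≤ c, h x = 0 := by
    intro x hx
    simp only [hh, hHd0 x hx, zero_mul]
  obtain ⟨Ψ, hΨc, hΨ0, hΨe⟩ := hVOL c N h hNs.continuous hNc hhs.continuous hhc hh0
  have hΨs : ContDiff ℝ ∞ Ψ := hBOOT c N Ψ h hNs hΨc hhs hΨe
  refine ⟨Ψ, hΨs, hΨ0, ?_⟩
  -- the Volterra equation of the first kind
  set E : ℝ → ℝ := fun x => ∫ τ in c..x, Lk k (τ, x) * Ψ τ with hE
  have hEd : ∀ x, HasDerivAt E (Lk k (x, x) * Ψ x + ∫ τ in c..x, dL (τ, x) * Ψ τ) x :=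
    fun x => hDER c (Lk k) Ψ hL hΨc x
  have hEd' : ∀ x ∈ Icc c D, HasDerivAt E (deriv H x) x := by
    intro x hx
    convert hEd x using 1
    have h1 : Lk k (x, x) * iv (Lk k (x, x)) = 1 := by
      rw [hive _ (hδle x hx)]
      exact mul_inv_cancel₀ (ne_of_gt (lt_of_lt_of_le hδ0 (hδle x hx)))
    have h2 : (∫ τ in c..x, N (τ, x) * Ψ τ) =
        -(iv (Lk k (x, x))) * ∫ τ in c..x, dL (τ, x) * Ψ τ := by
      rw [← intervalIntegral.integral_const_mul]
      apply intervalIntegral.integral_congr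
      intro τ hτ
      rw [uIcc_of_le hx.1] at hτ
      have h3 : χ τ = 1 := hχ1 τ ⟨hτ.1, hτ.2.trans hx.2⟩
      simp only [hN, h3, hχ1 x hx]
      ring
    have h4 := hΨe x
    rw [h2] at h4
    have h5 : h x = deriv H x * iv (Lk k (x, x)) := by
      simp only [hh, hχ1 x hx, mul_one]
    rw [h5] at h4
    have h6 : Lk k (x, x) * Ψ x = (Lk k (x, x) * iv (Lk k (x, x))) *
        (deriv H x - ∫ τ in c..x, dL (τ, x) * Ψ τ) := by
      rw [h4]; ring
    rw [h6, h1]
    ring
  have hEH : ∀ x ≤ D, E x = H x := by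
    intro x hx
    rcases le_or_gt x c with hxc | hxc
    · rw [hH0 x hxc]
      simp only [hE]
      rw [intervalIntegral.integral_congr (g := fun _ => (0 : ℝ))]
      · simp
      · intro τ hτ
        rw [uIcc_of_ge hxc] at hτ
        simp only [hΨ0 τ hτ.2, mul_zero]
    · have hd : ∀ y ∈ Icc c D, HasDerivAt (fun y => E y - H y) 0 y := by
        intro y hy
        have h1 : HasDerivAt H (deriv H y) y :=
          (hHs.differentiable (by simp)).differentiableAt.hasDerivAt
        have := (hEd' y hy).sub h1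
        rw [sub_self] at this
        exact this
      have hconst := constant_of_has_deriv_right_zero (f := fun y => E y - H y) (a := c) (b := D)
        (fun y hy => (hd y hy).continuousAt.continuousWithinAt)
        (fun y hy => (hd y ⟨hy.1, hy.2.le⟩).hasDerivWithinAt)
      have h1 := hconst x ⟨hxc.le, hx⟩
      have h2 : E c = 0 := by simp only [hE, intervalIntegral.integral_same]
      have h3 : H c = 0 := hH0 c le_rfl
      simp only [h2, h3, sub_zero] at h1
      linarith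
  -- injectivity
  have hBc : Continuous (Bop k Ψ) := Bop_continuous hk.continuous hΨc hΨ0
  have hB0 : ∀ x ≤ c, Bop k Ψ x = 0 := Bop_zero hΨ0
  have hfin := hINJ c D (fun x => Bop k Ψ x - G x) (hBc.sub hG.continuous)
    (fun x hx => by simp only [hB0 x hx, hG0 x hx, sub_zero]) (by
      intro x hx
      set M : ℝ := √(|x - c|) with hM
      have hM0 : 0 ≤ M := Real.sqrt_nonneg _
      have hM2 : x - c ≤ M ^ 2 := by
        rw [hM, Real.sq_sqrt (abs_nonneg _)]
        exact le_abs_self _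
      have hi1 : Integrable fun η : ℝ => Bop k Ψ (x - η ^ 2) :=
        integrable_line (M := M) (hBc.comp (by fun_prop)) (fun η hη => supp_sq hB0 hM0 hM2 hη)
      have hi2 : Integrable fun η : ℝ => G (x - η ^ 2) :=
        integrable_line (M := M) (hG.continuous.comp (by fun_prop))
          (fun η hη => supp_sq hG0 hM0 hM2 hη)
      rw [integral_sub hi1 hi2, hPOL c k Ψ hk.continuous hΨc hΨ0 x]
      have := hEH x hx
      simp only [hE, hH] at this
      rw [this, sub_self])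
  intro x hx
  have := hfin x hx
  linarith

end Run7.h719.MO
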